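import Mathlib

set_option autoImplicit false

/-!
Counting families of coefficient vectors orthogonal to a given vector.
-/

namespace Pool.Agent.K6.H22.AL

open Finset

variable {F : Type} [Field F] [Fintype F] [DecidableEq F]

/-- the number of vectors orthogonal to a nonzero vector -/
theorem card_orth {ι : Type} [Fintype ι] [DecidableEq ι] (w : ι → F) (hw : w ≠ 0) :
    Fintype.card {c : ι → F // ∑ z, c z * w z = 0} * Fintype.card F = Fintype.card (ι → F) := by
  obtain ⟨z, hz⟩ : ∃ z, w z ≠ 0 := by
    by_contra h
    push Not at h
    exact hw (funext h)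
  -- bijection
  let e : {c : ι → F // ∑ z, c z * w z = 0} × F ≃ (ι → F) :=
    { toFun := fun x => x.1.1 + x.2 • Pi.single z 1
      invFun := fun c => (⟨c - ((∑ y, c y * w y) / w z) • Pi.single z 1, by
        simp only [Pi.sub_apply, Pi.smul_apply, smul_eq_mul, sub_mul, sum_sub_distrib]
        rw [Finset.sum_eq_single z (fun b _ hb => by simp [Pi.single_apply, hb])
          (fun h => absurd (Finset.mem_univ _) h) (f := fun x => (∑ y, c y * w y) / w z *
            (Pi.single z (1 : F) : ι → F) x * w x)]
        simp only [Pi.single_eq_same]
        field_simp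
        ring⟩, (∑ y, c y * w y) / w z)
      left_inv := by
        rintro ⟨⟨c, hc⟩, t⟩
        have key : (∑ y, (c + t • (Pi.single z (1 : F) : ι → F)) y * w y) = t * w z := by
          simp only [Pi.add_apply, Pi.smul_apply, smul_eq_mul, add_mul, sum_add_distrib, hc, zero_add]
          rw [Finset.sum_eq_single z (fun b _ hb => by simp [Pi.single_apply, hb])
            (fun h => absurd (Finset.mem_univ _) h)]
          simp
        have key2 : (t * w z) / w z = t := by field_simp
        ext1
        · apply Subtype.ext
          show c + t • Pi.single z 1 - ((∑ y, (c + t • (Pi.single z (1 : F) : ι → F)) y * w y) / w z) •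
            Pi.single z 1 = c
          rw [key, key2]
          simp
        · show (∑ y, (c + t • (Pi.single z (1 : F) : ι → F)) y * w y) / w z = t
          rw [key, key2]
      right_inv := by
        intro c
        simp }
  rw [← Fintype.card_prod]
  exact Fintype.card_congr e

/-- the number of families of `s` vectors orthogonal to a nonzero vector -/
theorem card_orth_fam {ι : Type} [Fintype ι] [DecidableEq ι] (w : ι → F) (hw : w ≠ 0) (s : ℕ) :
    (univ.filter fun c : Fin s → ι → F => ∀ i, ∑ z, c i z * w z = 0).card *
      Fintype.card F ^ s = Fintype.card (Fin s → ι → F) := by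
  have h1 : (univ.filter fun c : Fin s → ι → F => ∀ i, ∑ z, c i z * w z = 0).card =
      Fintype.card {c : ι → F // ∑ z, c z * w z = 0} ^ s := by
    rw [← Fintype.card_subtype]
    have : {c : Fin s → ι → F // ∀ i, ∑ z, c i z * w z = 0} ≃
        (Fin s → {c : ι → F // ∑ z, c z * w z = 0}) :=
      { toFun := fun c i => ⟨c.1 i, c.2 i⟩
        invFun := fun c => ⟨fun i => (c i).1, fun i => (c i).2⟩
        left_inv := fun c => rfl
        right_inv := fun c => rfl }
    rw [Fintype.card_congr this, Fintype.card_fun, Fintype.card_fin]
  rw [h1, ← mul_pow, card_orth w hw, ← Fintype.card_fin s, ← Fintype.card_fun, Fintype.card_fin]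

end Pool.Agent.K6.H22.AL
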