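import Mathlib

set_option autoImplicit false

/-!
Polynomials of degree at most `d` without constant term which vanish at `m` given points: `m`
linear conditions on the coefficients in triangular form.
-/

namespace Pool.Agent.K6.H22.AL

open Finset

variable {F : Type} [Field F]

theorem elim_coeff {m d : ℕ} (hmd : m ≤ d) (t : Fin m → F) (ht : Function.Injective t)
    (ht0 : ∀ l, t l ≠ 0) :
    ∃ β : Fin m → ℕ → F, ∀ P : Polynomial F, P.natDegree ≤ d → P.coeff 0 = 0 →
      (∀ j : Fin m, P.coeff (d - j) + ∑ a ∈ Ico 1 (d - m + 1), β j a * P.coeff a = 0) →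
      ∀ l, P.eval (t l) = 0 := by
  classical
  let V : Matrix (Fin m) (Fin m) F := fun l j => t l ^ (d - (j : ℕ))
  have hV : IsUnit V.det := by
    have h1 : V = (Matrix.diagonal fun l => t l ^ (d - m + 1)) *
        ((Matrix.vandermonde t).submatrix id (Fin.revPerm)) := by
      ext l j
      rw [Matrix.diagonal_mul, Matrix.submatrix_apply, Matrix.vandermonde_apply]
      show t l ^ (d - (j : ℕ)) = t l ^ (d - m + 1) * t l ^ ((Fin.revPerm j : Fin m) : ℕ)
      rw [← pow_add]
      congr 1
      simp only [Fin.revPerm_apply, Fin.val_rev]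
      have := j.2
      omega
    rw [h1, Matrix.det_mul, Matrix.det_diagonal, Matrix.det_permute']
    rw [isUnit_iff_ne_zero]
    refine mul_ne_zero (prod_ne_zero_iff.2 fun l _ => pow_ne_zero _ (ht0 l)) ?_
    refine mul_ne_zero ?_ (Matrix.det_vandermonde_ne_zero_iff.2 ht)
    rcases Int.units_eq_one_or (Equiv.Perm.sign (Fin.revPerm : Equiv.Perm (Fin m))) with h | h
    · rw [h]; simp
    · rw [h]; simp
  refine ⟨fun j a => (V⁻¹.mulVec fun l => t l ^ a) j, ?_⟩
  intro P hP h0 hj l
  have hβ : ∀ a : ℕ, ∀ l : Fin m, t l ^ a =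
      ∑ j : Fin m, t l ^ (d - (j : ℕ)) * (V⁻¹.mulVec fun l => t l ^ a) j := by
    intro a l
    have h1 : V.mulVec (V⁻¹.mulVec fun l => t l ^ a) = fun l => t l ^ a := by
      rw [Matrix.mulVec_mulVec, Matrix.mul_nonsing_inv _ hV, Matrix.one_mulVec]
    exact (congrFun h1 l).symm
  rw [Polynomial.eval_eq_sum_range' (n := d + 1) (by omega)]
  have hsplit : ∑ i ∈ range (d + 1), P.coeff i * t l ^ i =
      ∑ a ∈ Ico 1 (d - m + 1), P.coeff a * t l ^ a +
        ∑ j : Fin m, P.coeff (d - j) * t l ^ (d - (j : ℕ)) := by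
    rw [range_eq_Ico, Finset.sum_eq_sum_Ico_succ_bot (by omega), h0, zero_mul, zero_add,
      ← Finset.sum_Ico_consecutive _ (show 0 + 1 ≤ d - m + 1 by omega)
        (show d - m + 1 ≤ d + 1 by omega)]
    congr 1
    symm
    refine Finset.sum_bij (fun j _ => d - (j : ℕ)) ?_ ?_ ?_ ?_
    · intro j _
      rw [mem_Ico]
      have := j.2
      omega
    · intro a _ b _ h
      have ha := a.2
      have hb := b.2
      apply Fin.ext
      omega
    · intro i hi
      rw [mem_Ico] at hi
      refine ⟨⟨d - i, by omega⟩, mem_univ _, ?_⟩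
      show d - (d - i) = i
      omega
    · intro j _
      rfl
  rw [hsplit]
  have h2 : ∑ a ∈ Ico 1 (d - m + 1), P.coeff a * t l ^ a =
      ∑ j : Fin m, t l ^ (d - (j : ℕ)) *
        ∑ a ∈ Ico 1 (d - m + 1), (V⁻¹.mulVec fun l => t l ^ a) j * P.coeff a := by
    simp only [mul_sum]
    rw [sum_comm]
    refine sum_congr rfl fun a _ => ?_
    rw [hβ a l, mul_sum]
    refine sum_congr rfl fun j _ => ?_
    ring
  rw [h2, ← sum_add_distrib]
  apply sum_eq_zero
  intro j _
  have := hj j
  linear_combination t l ^ (d - (j : ℕ)) * this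

end Pool.Agent.K6.H22.AL
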