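import Mathlib

set_option autoImplicit false

/-!
Interpolation on grids.
-/

namespace Pool.Agent.K6.H22.AL

open Finset MvPolynomial

variable {F : Type} [Field F] [Fintype F] [DecidableEq F] {n : ℕ}

/-- the polynomial which is zero on the grid `∏ T k` except at `y` -/
noncomputable def lag (T : Fin n → Finset F) (y : Fin n → F) : MvPolynomial (Fin n) F :=
  ∏ k, ∏ c ∈ (T k).erase (y k), (X k - C c)

omit [Fintype F] in
theorem eval_lag_self (T : Fin n → Finset F) (y : Fin n → F) : eval y (lag T y) ≠ 0 := by
  rw [lag, map_prod, prod_ne_zero_iff]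
  intro k _
  rw [map_prod, prod_ne_zero_iff]
  intro c hc
  rw [map_sub, eval_X, eval_C, sub_ne_zero]
  exact (ne_of_mem_erase hc).symm

omit [Fintype F] in
theorem eval_lag_ne (T : Fin n → Finset F) (y z : Fin n → F) (hz : ∀ k, z k ∈ T k) (h : z ≠ y) :
    eval z (lag T y) = 0 := by
  obtain ⟨k, hk⟩ := Function.ne_iff.1 h
  rw [lag, map_prod]
  apply prod_eq_zero (mem_univ k)
  rw [map_prod]
  apply prod_eq_zero (mem_erase.2 ⟨hk, hz k⟩)
  rw [map_sub, eval_X, eval_C, sub_self]

omit [Fintype F] in
theorem totalDegree_lag (T : Fin n → Finset F) (y : Fin n → F) {τ : ℕ}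
    (hT : ∀ k, (T k).card = τ + 1) (hy : ∀ k, y k ∈ T k) : (lag T y).totalDegree ≤ n * τ := by
  refine (totalDegree_finsetProd _ _).trans ?_
  calc _ ≤ ∑ k : Fin n, τ := by
        refine sum_le_sum fun k _ => ?_
        refine (totalDegree_finsetProd _ _).trans ?_
        calc _ ≤ ∑ c ∈ (T k).erase (y k), 1 := by
              refine sum_le_sum fun c _ => ?_
              refine (totalDegree_sub _ _).trans (max_le ?_ ?_)
              · rw [totalDegree_X]
              · rw [totalDegree_C]; exact Nat.zero_le _
          _ = τ := by rw [sum_const, smul_eq_mul, mul_one, card_erase_of_mem (hy k), hT k]; rfl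
    _ = n * τ := by simp

/-- **Interpolation and counting.** -/
theorem grid_bound {τ : ℕ} (A Z : Finset (Fin n → F)) (S : Finset F) (hS : S.card = τ + 1)
    (hvan : ∀ G : MvPolynomial (Fin n) F, G.totalDegree ≤ n * τ → (∀ y ∈ Z, eval y G = 0) →
      ∀ x ∈ A, eval x G = 0) :
    A.card * (τ + 1) ^ n ≤ Fintype.card F ^ n * Z.card := by
  classical
  -- each grid contains few points of `A`
  have hgrid : ∀ a : Fin n → F, (A.filter fun x => ∀ k, x k - a k ∈ S).card ≤ Z.card := by
    intro a
    by_contra hlt
    push Not at hlt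
    set J := A.filter fun x => ∀ k, x k - a k ∈ S with hJ
    let T : Fin n → Finset F := fun k => S.image fun c => c + a k
    have hTc : ∀ k, (T k).card = τ + 1 := by
      intro k
      rw [card_image_of_injective _ (add_left_injective (a k)), hS]
    have hmemT : ∀ x ∈ J, ∀ k, x k ∈ T k := by
      intro x hx k
      exact mem_image.2 ⟨x k - a k, (mem_filter.1 hx).2 k, by ring⟩
    let Φ : (J → F) →ₗ[F] (Z → F) :=
      { toFun := fun u z => ∑ y : J, u y * eval z.1 (lag T y.1)
        map_add' := by
          intro u v; ext z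
          simp only [Pi.add_apply, add_mul, sum_add_distrib]
        map_smul' := by
          intro c u; ext z
          simp only [Pi.smul_apply, smul_eq_mul, RingHom.id_apply, mul_sum, mul_assoc] }
    have hker : LinearMap.ker Φ ≠ ⊥ := by
      apply LinearMap.ker_ne_bot_of_finrank_lt
      rw [Module.finrank_fintype_fun_eq_card, Module.finrank_fintype_fun_eq_card, Fintype.card_coe,
        Fintype.card_coe]
      exact hlt
    obtain ⟨u, hu, hu0⟩ := Submodule.exists_mem_ne_zero_of_ne_bot hker
    let G : MvPolynomial (Fin n) F := ∑ y : J, C (u y) * lag T y.1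
    have hGdeg : G.totalDegree ≤ n * τ := by
      refine totalDegree_finsetSum_le fun y _ => ?_
      refine (totalDegree_mul _ _).trans ?_
      rw [totalDegree_C, zero_add]
      exact totalDegree_lag T y.1 hTc (hmemT y.1 y.2)
    have hGZ : ∀ z ∈ Z, eval z G = 0 := by
      intro z hz
      have := congrFun (LinearMap.mem_ker.1 hu) ⟨z, hz⟩
      simp only [G, map_sum, map_mul, eval_C]
      exact this
    have hGA := hvan G hGdeg hGZ
    apply hu0
    ext y0
    have h1 := hGA y0.1 (mem_filter.1 y0.2).1
    simp only [G, map_sum, map_mul, eval_C] at h1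
    rw [Finset.sum_eq_single y0] at h1
    · exact (mul_eq_zero.1 h1).resolve_right (eval_lag_self T y0.1)
    · intro y _ hy
      rw [eval_lag_ne T y.1 y0.1 (hmemT y0.1 y0.2) (fun h => hy (Subtype.ext h.symm)), mul_zero]
    · intro h; exact absurd (mem_univ _) h
  have hcount : ∑ a : Fin n → F, (A.filter fun x => ∀ k, x k - a k ∈ S).card =
      A.card * (τ + 1) ^ n := by
    have h1 : ∀ a : Fin n → F, (A.filter fun x => ∀ k, x k - a k ∈ S).card =
        ∑ x ∈ A, if (∀ k, x k - a k ∈ S) then 1 else 0 := fun a => card_filter _ _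
    rw [sum_congr rfl fun a _ => h1 a, sum_comm]
    have h2 : ∀ x ∈ A, ∑ a : Fin n → F, (if (∀ k, x k - a k ∈ S) then 1 else 0) = (τ + 1) ^ n := by
      intro x _
      rw [← card_filter]
      have h3 : (univ.filter fun a : Fin n → F => ∀ k, x k - a k ∈ S) =
          (Fintype.piFinset fun _ => S).image fun b => x - b := by
        ext a
        simp only [mem_filter, mem_univ, true_and, mem_image, Fintype.mem_piFinset]
        constructor
        · intro h
          exact ⟨x - a, h, by simp⟩
        · rintro ⟨b, hb, rfl⟩ k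
          simpa using hb k
      rw [h3, card_image_of_injective _ sub_right_injective, Fintype.card_piFinset, prod_const, hS,
        card_univ, Fintype.card_fin]
    rw [sum_congr rfl h2, sum_const, smul_eq_mul]
  rw [← hcount]
  calc _ ≤ ∑ a : Fin n → F, Z.card := sum_le_sum fun a _ => hgrid a
    _ = _ := by rw [sum_const, card_univ, Fintype.card_fun, Fintype.card_fin, smul_eq_mul]

end Pool.Agent.K6.H22.AL
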