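import Mathlib

set_option autoImplicit false

/-!
Restriction of polynomials to lines.
-/

namespace Pool.Agent.K6.H22.AL

open Finset

variable {F : Type} [Field F] {n : ℕ}

/-- the restriction of `g` to the line `x + t v` -/
noncomputable def onLine (x v : Fin n → F) (g : MvPolynomial (Fin n) F) : Polynomial F :=
  MvPolynomial.aeval (fun k => Polynomial.C (x k) + Polynomial.C (v k) * Polynomial.X) g

theorem eval_onLine (x v : Fin n → F) (g : MvPolynomial (Fin n) F) (t : F) :
    (onLine x v g).eval t = MvPolynomial.eval (x + t • v) g := by
  induction g using MvPolynomial.induction_on with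
  | C a => simp [onLine]
  | add p q hp hq =>
    rw [onLine, map_add, Polynomial.eval_add, map_add]
    rw [← hp, ← hq]; rfl
  | mul_X p k hp =>
    rw [onLine, map_mul, Polynomial.eval_mul, map_mul]
    rw [← hp, MvPolynomial.aeval_X, MvPolynomial.eval_X]
    simp only [Polynomial.eval_add, Polynomial.eval_mul, Polynomial.eval_C, Polynomial.eval_X,
      Pi.add_apply, Pi.smul_apply, smul_eq_mul]
    rw [onLine, mul_comm (v k) t]

theorem natDegree_onLine (x v : Fin n → F) (g : MvPolynomial (Fin n) F) {d : ℕ}
    (hg : g.totalDegree ≤ d) : (onLine x v g).natDegree ≤ d := by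
  have h := MvPolynomial.aeval_natDegree_le g hg
    (fun k => Polynomial.C (x k) + Polynomial.C (v k) * Polynomial.X) (n := 1) (by
      intro k
      refine (Polynomial.natDegree_add_le _ _).trans (max_le ?_ ?_)
      · rw [Polynomial.natDegree_C]; exact Nat.zero_le _
      · refine (Polynomial.natDegree_C_mul_le _ _).trans ?_
        exact Polynomial.natDegree_X_le)
  rwa [mul_one] at h

theorem derivative_onLine (x v : Fin n → F) (g : MvPolynomial (Fin n) F) :
    Polynomial.derivative (onLine x v g) =
      ∑ k, onLine x v (MvPolynomial.pderiv k g) * Polynomial.C (v k) := by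
  classical
  induction g using MvPolynomial.induction_on with
  | C a => simp [onLine]
  | add p q hp hq =>
    have h1 : onLine x v (p + q) = onLine x v p + onLine x v q := by simp [onLine]
    rw [h1, Polynomial.derivative_add, hp, hq, ← sum_add_distrib]
    refine sum_congr rfl fun k _ => ?_
    rw [map_add, ← add_mul]
    congr 1
    simp [onLine]
  | mul_X p k hp =>
    have h1 : onLine x v (p * MvPolynomial.X k) =
        onLine x v p * (Polynomial.C (x k) + Polynomial.C (v k) * Polynomial.X) := by
      simp [onLine]
    rw [h1, Polynomial.derivative_mul, hp]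
    have h2 : ∀ j, onLine x v (MvPolynomial.pderiv j (p * MvPolynomial.X k)) * Polynomial.C (v j) =
        onLine x v (MvPolynomial.pderiv j p) * Polynomial.C (v j) *
          (Polynomial.C (x k) + Polynomial.C (v k) * Polynomial.X) +
        if j = k then onLine x v p * Polynomial.C (v k) else 0 := by
      intro j
      rw [Derivation.leibniz, MvPolynomial.pderiv_X, smul_eq_mul, smul_eq_mul]
      by_cases h : j = k
      · subst h
        rw [Pi.single_eq_same, if_pos rfl, mul_one]
        simp only [onLine, map_add, map_mul, MvPolynomial.aeval_X]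
        ring
      · rw [Pi.single_eq_of_ne (fun h' => h h'.symm), if_neg h]
        simp only [onLine, map_add, map_mul, MvPolynomial.aeval_X, map_zero]
        ring
    rw [sum_congr rfl fun j _ => h2 j, sum_add_distrib, ← sum_mul, Finset.sum_ite_eq' univ k,
      if_pos (mem_univ _)]
    congr 1
    simp [Polynomial.derivative_add, Polynomial.derivative_mul]

theorem eval_derivative_onLine (x v : Fin n → F) (g : MvPolynomial (Fin n) F) (t : F) :
    (Polynomial.derivative (onLine x v g)).eval t =
      ∑ k, MvPolynomial.eval (x + t • v) (MvPolynomial.pderiv k g) * v k := by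
  rw [derivative_onLine, Polynomial.eval_finsetSum]
  refine sum_congr rfl fun k _ => ?_
  rw [Polynomial.eval_mul, Polynomial.eval_C, eval_onLine]

/-- a polynomial with `m` double zeros -/
theorem eq_zero_of_double {P : Polynomial F} {m d : ℕ} (hP : P.natDegree ≤ d) (hd : d < 2 * m)
    (t : Fin m → F) (ht : Function.Injective t) (h0 : ∀ l, P.eval (t l) = 0)
    (h1 : ∀ l, (Polynomial.derivative P).eval (t l) = 0) : P = 0 := by
  classical
  by_contra hne
  have h2 : ∀ l, 2 ≤ P.roots.count (t l) := by
    intro l
    rw [Polynomial.count_roots]
    exact (Polynomial.one_lt_rootMultiplicity_iff_isRoot hne).2 ⟨h0 l, h1 l⟩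
  have h3 : 2 * m ≤ P.roots.card := by
    calc 2 * m = ∑ l : Fin m, 2 := by simp [mul_comm]
      _ ≤ ∑ l : Fin m, P.roots.count (t l) := sum_le_sum fun l _ => h2 l
      _ = ∑ a ∈ univ.image t, P.roots.count a := by
          rw [sum_image (fun a _ b _ h => ht h)]
      _ ≤ ∑ a ∈ P.roots.toFinset, P.roots.count a := by
          apply sum_le_sum_of_subset
          intro a ha
          obtain ⟨l, -, rfl⟩ := mem_image.1 ha
          rw [Multiset.mem_toFinset, ← Multiset.count_pos]
          have := h2 l
          omega
      _ = P.roots.card := Multiset.toFinset_sum_count_eq _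
  have h4 := Polynomial.card_roots' P
  omega

/-- the restriction to the lines through `x` as a polynomial in the direction -/
noncomputable def lineP (x : Fin n → F) (g : MvPolynomial (Fin n) F) :
    Polynomial (MvPolynomial (Fin n) F) :=
  MvPolynomial.aeval (fun k => Polynomial.C (MvPolynomial.C (x k)) +
    Polynomial.C (MvPolynomial.X k) * Polynomial.X) g

theorem lineP_coeff_degree (x : Fin n → F) (g : MvPolynomial (Fin n) F) :
    ∀ j, ((lineP x g).coeff j).totalDegree ≤ j := by
  induction g using MvPolynomial.induction_on with
  | C a =>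
    intro j
    have : lineP x (MvPolynomial.C a) = Polynomial.C (MvPolynomial.C a) := by
      simp only [lineP, MvPolynomial.aeval_C]
      rfl
    rw [this, Polynomial.coeff_C]
    split_ifs
    · rw [MvPolynomial.totalDegree_C]; exact Nat.zero_le _
    · rw [MvPolynomial.totalDegree_zero]; exact Nat.zero_le _
  | add p q hp hq =>
    intro j
    have : lineP x (p + q) = lineP x p + lineP x q := by simp [lineP]
    rw [this, Polynomial.coeff_add]
    exact (MvPolynomial.totalDegree_add _ _).trans (max_le (hp j) (hq j))
  | mul_X p k hp =>
    intro j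
    have : lineP x (p * MvPolynomial.X k) = lineP x p * Polynomial.C (MvPolynomial.C (x k)) +
        lineP x p * Polynomial.C (MvPolynomial.X k) * Polynomial.X := by
      simp only [lineP, map_mul, MvPolynomial.aeval_X]
      ring
    rw [this, Polynomial.coeff_add]
    refine (MvPolynomial.totalDegree_add _ _).trans (max_le ?_ ?_)
    · rw [Polynomial.coeff_mul_C]
      refine (MvPolynomial.totalDegree_mul _ _).trans ?_
      rw [MvPolynomial.totalDegree_C, add_zero]
      exact hp j
    · cases j with
      | zero =>
        rw [Polynomial.coeff_mul_X_zero, MvPolynomial.totalDegree_zero]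
      | succ j =>
        rw [Polynomial.coeff_mul_X, Polynomial.coeff_mul_C]
        refine (MvPolynomial.totalDegree_mul _ _).trans ?_
        rw [MvPolynomial.totalDegree_X]
        exact Nat.succ_le_succ (hp j)

theorem eval_lineP_coeff (x v : Fin n → F) (g : MvPolynomial (Fin n) F) (j : ℕ) :
    MvPolynomial.eval v ((lineP x g).coeff j) = (onLine x v g).coeff j := by
  have h : (lineP x g).map (MvPolynomial.eval v) = onLine x v g := by
    induction g using MvPolynomial.induction_on with
    | C a =>
      have h1 : lineP x (MvPolynomial.C a) = Polynomial.C (MvPolynomial.C a) := by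
        simp only [lineP, MvPolynomial.aeval_C]
        rfl
      rw [h1, Polynomial.map_C, MvPolynomial.eval_C]
      simp only [onLine, MvPolynomial.aeval_C]
      rfl
    | add p q hp hq =>
      have h1 : lineP x (p + q) = lineP x p + lineP x q := by simp [lineP]
      have h2 : onLine x v (p + q) = onLine x v p + onLine x v q := by simp [onLine]
      rw [h1, h2, Polynomial.map_add, hp, hq]
    | mul_X p k hp =>
      have h1 : lineP x (p * MvPolynomial.X k) = lineP x p *
          (Polynomial.C (MvPolynomial.C (x k)) + Polynomial.C (MvPolynomial.X k) * Polynomial.X) := by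
        simp [lineP]
      have h2 : onLine x v (p * MvPolynomial.X k) =
          onLine x v p * (Polynomial.C (x k) + Polynomial.C (v k) * Polynomial.X) := by
        simp [onLine]
      rw [h1, h2, Polynomial.map_mul, hp]
      congr 1
      simp
  rw [← h, Polynomial.coeff_map]

/-- composition with an affine map does not increase the degree -/
theorem totalDegree_shift (g : MvPolynomial (Fin n) F) (h : Fin n → MvPolynomial (Fin n) F)
    (hh : ∀ k, (h k).totalDegree ≤ 1) : (MvPolynomial.aeval h g).totalDegree ≤ g.totalDegree := by
  rw [MvPolynomial.aeval_def, MvPolynomial.eval₂_eq']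
  refine MvPolynomial.totalDegree_finsetSum_le fun m hm => ?_
  refine (MvPolynomial.totalDegree_mul _ _).trans ?_
  have h1 : ((algebraMap F (MvPolynomial (Fin n) F)) (MvPolynomial.coeff m g)).totalDegree = 0 :=
    MvPolynomial.totalDegree_C _
  rw [h1, zero_add]
  refine (MvPolynomial.totalDegree_finsetProd _ _).trans ?_
  refine le_trans ?_ (MvPolynomial.le_totalDegree hm)
  rw [Finsupp.sum_fintype _ _ (fun _ => rfl)]
  refine sum_le_sum fun k _ => ?_
  refine (MvPolynomial.totalDegree_pow _ _).trans ?_
  calc m k * (h k).totalDegree ≤ m k * 1 := Nat.mul_le_mul_left _ (hh k)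
    _ = m k := mul_one _

/-- the polynomial `v ↦ g (x + t v)` -/
noncomputable def shift (x : Fin n → F) (t : F) (g : MvPolynomial (Fin n) F) :
    MvPolynomial (Fin n) F :=
  MvPolynomial.aeval (fun k => MvPolynomial.C (x k) + MvPolynomial.C t * MvPolynomial.X k) g

theorem totalDegree_shift' (x : Fin n → F) (t : F) (g : MvPolynomial (Fin n) F) :
    (shift x t g).totalDegree ≤ g.totalDegree := by
  apply totalDegree_shift
  intro k
  refine (MvPolynomial.totalDegree_add _ _).trans (max_le ?_ ?_)
  · rw [MvPolynomial.totalDegree_C]; exact Nat.zero_le _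
  · refine (MvPolynomial.totalDegree_mul _ _).trans ?_
    rw [MvPolynomial.totalDegree_C, MvPolynomial.totalDegree_X]

theorem eval_shift (x v : Fin n → F) (t : F) (g : MvPolynomial (Fin n) F) :
    MvPolynomial.eval v (shift x t g) = MvPolynomial.eval (x + t • v) g := by
  induction g using MvPolynomial.induction_on with
  | C a => simp [shift]
  | add p q hp hq =>
    rw [shift, map_add, map_add, map_add, ← hp, ← hq]; rfl
  | mul_X p k hp =>
    rw [shift, map_mul, map_mul, map_mul, ← hp, MvPolynomial.aeval_X, MvPolynomial.eval_X]
    simp [shift]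

end Pool.Agent.K6.H22.AL
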