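import Mathlib
import Pool.Agent.K6.H22.AL.Line
import Pool.Agent.K6.H22.AL.Cnt
import Pool.Agent.K6.H22.AL.Elim
import Pool.Agent.K6.H22.AL.Grid

set_option autoImplicit false

/-!
The argument of Chevalley and Warning for random combinations of the equations.
-/

namespace Pool.Agent.K6.H22.AL

open Finset MvPolynomial

variable {F : Type} [Field F] [Fintype F] [DecidableEq F] {n : ℕ}
variable {ι : Type} [Fintype ι] [DecidableEq ι]

/-- combinations of polynomials -/
noncomputable def comb {s : ℕ} (f : ι → MvPolynomial (Fin n) F) (c : Fin s → ι → F) :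
    Fin s → MvPolynomial (Fin n) F := fun i => ∑ z, C (c i z) * f z

omit [Fintype F] [DecidableEq F] [DecidableEq ι] in
theorem eval_comb {s : ℕ} (f : ι → MvPolynomial (Fin n) F) (c : Fin s → ι → F)
    (x : Fin n → F) (i : Fin s) : eval x (comb f c i) = ∑ z, c i z * eval x (f z) := by
  simp [comb]

omit [Fintype F] [DecidableEq F] [DecidableEq ι] in
theorem totalDegree_comb {s d : ℕ} (f : ι → MvPolynomial (Fin n) F)
    (hf : ∀ z, (f z).totalDegree ≤ d) (c : Fin s → ι → F) (i : Fin s) :
    (comb f c i).totalDegree ≤ d := by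
  refine totalDegree_finsetSum_le fun z _ => ?_
  refine (totalDegree_mul _ _).trans ?_
  rw [totalDegree_C, zero_add]
  exact hf z

/-- **The choice of the combinations.** -/
theorem choose_comb (A : Finset (Fin n → F)) (f : ι → MvPolynomial (Fin n) F)
    (hf : ∀ y, y ∉ A → ∃ z, eval y (f z) ≠ 0) (s : ℕ) :
    ∃ (c : Fin s → ι → F) (E : Finset (Fin n → F)),
      E.card * Fintype.card F ^ s ≤ Fintype.card F ^ n ∧
      (∀ y, y ∉ A → (∀ i, eval y (comb f c i) = 0) → y ∈ E) := by
  classical
  set q := Fintype.card F with hq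
  let E : (Fin s → ι → F) → Finset (Fin n → F) := fun c =>
    univ.filter fun y => y ∉ A ∧ ∀ i, ∑ z, c i z * eval y (f z) = 0
  have hsum : ∑ c : Fin s → ι → F, (E c).card * q ^ s ≤ ∑ c : Fin s → ι → F, q ^ n := by
    rw [Finset.sum_const, card_univ, smul_eq_mul, ← sum_mul]
    have h1 : ∑ c : Fin s → ι → F, (E c).card =
        ∑ y ∈ (univ.filter fun y : Fin n → F => y ∉ A),
          (univ.filter fun c : Fin s → ι → F => ∀ i, ∑ z, c i z * eval y (f z) = 0).card := by
      have h2 : ∀ c : Fin s → ι → F, (E c).card =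
          ∑ y ∈ (univ.filter fun y : Fin n → F => y ∉ A),
            if (∀ i, ∑ z, c i z * eval y (f z) = 0) then 1 else 0 := by
        intro c
        rw [← card_filter, filter_filter]
      rw [sum_congr rfl fun c _ => h2 c, sum_comm]
      refine sum_congr rfl fun y _ => ?_
      rw [card_filter]
    rw [h1, sum_mul]
    calc _ = ∑ y ∈ (univ.filter fun y : Fin n → F => y ∉ A), Fintype.card (Fin s → ι → F) := by
          refine sum_congr rfl fun y hy => ?_
          obtain ⟨z, hz⟩ := hf y (mem_filter.1 hy).2
          exact card_orth_fam (fun z => eval y (f z)) (fun h => hz (congrFun h z)) s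
      _ ≤ _ := by
          rw [sum_const, smul_eq_mul, mul_comm]
          apply Nat.mul_le_mul_left
          refine (card_le_univ _).trans ?_
          rw [Fintype.card_fun, Fintype.card_fin]
  obtain ⟨c, -, hc⟩ := Finset.exists_le_of_sum_le (univ_nonempty) hsum
  refine ⟨c, E c, hc, ?_⟩
  intro y hy h
  refine mem_filter.2 ⟨mem_univ _, hy, fun i => ?_⟩
  rw [← eval_comb]
  exact h i

/-- **A polynomial of small degree that vanishes at the exceptional points vanishes on `A`.** -/
theorem vanish {d s e m : ℕ} (A : Finset (Fin n → F)) (hmd : m ≤ d) (hm1 : 1 ≤ m)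
    (t : Fin m → F) (ht : Function.Injective t) (ht0 : ∀ l, t l ≠ 0)
    (hap : ∀ x v : Fin n → F, x ∈ A → (∀ l, x + t l • v ∈ A) → v = 0)
    (g : Fin s → MvPolynomial (Fin n) F) (hgd : ∀ i, (g i).totalDegree ≤ d)
    (hgA : ∀ x ∈ A, ∀ i, eval x (g i) = 0)
    (E : Finset (Fin n → F)) (hE : ∀ y, y ∉ A → (∀ i, eval y (g i) = 0) → y ∈ E)
    (G : MvPolynomial (Fin n) F) (hG : G.totalDegree ≤ e) (hGE : ∀ y ∈ E, eval y G = 0)
    (hdeg : (Fintype.card F - 1) * (s * ∑ j ∈ range m, (d - j)) + m * e <
      (Fintype.card F - 1) * n) :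
    ∀ x ∈ A, eval x G = 0 := by
  classical
  set q := Fintype.card F with hq
  have hq1 : q - 1 ≠ 0 := by
    have : 1 < q := Fintype.one_lt_card
    omega
  obtain ⟨β, hβ⟩ := elim_coeff hmd t ht ht0
  intro x hx
  -- the polynomial
  let H : Fin s → Fin m → MvPolynomial (Fin n) F := fun i j =>
    (lineP x (g i)).coeff (d - j) + ∑ a ∈ Ico 1 (d - m + 1), C (β j a) * (lineP x (g i)).coeff a
  have hH : ∀ v i j, eval v (H i j) = (onLine x v (g i)).coeff (d - j) +
      ∑ a ∈ Ico 1 (d - m + 1), β j a * (onLine x v (g i)).coeff a := by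
    intro v i j
    simp only [H, map_add, map_sum, map_mul, eval_C, eval_lineP_coeff]
  let Q : MvPolynomial (Fin n) F :=
    (∏ i : Fin s, ∏ j : Fin m, (1 - (H i j) ^ (q - 1))) * ∏ l : Fin m, shift x (t l) G
  have hQdeg : Q.totalDegree < (q - 1) * Fintype.card (Fin n) := by
    rw [Fintype.card_fin]
    refine lt_of_le_of_lt ?_ hdeg
    refine (totalDegree_mul _ _).trans (add_le_add ?_ ?_)
    · refine (totalDegree_finsetProd _ _).trans ?_
      have h1 : ∀ i : Fin s, (∏ j : Fin m, (1 - (H i j) ^ (q - 1))).totalDegree ≤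
          (q - 1) * ∑ j ∈ range m, (d - j) := by
        intro i
        refine (totalDegree_finsetProd _ _).trans ?_
        rw [mul_sum, ← Fin.sum_univ_eq_sum_range (fun j => (q - 1) * (d - j))]
        refine sum_le_sum fun j _ => ?_
        refine (totalDegree_sub _ _).trans (max_le ?_ ?_)
        · rw [totalDegree_one]; exact Nat.zero_le _
        · refine (totalDegree_pow _ _).trans ?_
          apply Nat.mul_le_mul_left
          refine (totalDegree_add _ _).trans (max_le (lineP_coeff_degree x (g i) _) ?_)
          refine totalDegree_finsetSum_le fun a ha => ?_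
          refine (totalDegree_mul _ _).trans ?_
          rw [totalDegree_C, zero_add]
          refine (lineP_coeff_degree x (g i) a).trans ?_
          rw [mem_Ico] at ha
          have := j.2
          omega
      refine (sum_le_sum fun i _ => h1 i).trans ?_
      rw [sum_const, card_univ, Fintype.card_fin, smul_eq_mul]
      apply le_of_eq
      ring
    · refine (totalDegree_finsetProd _ _).trans ?_
      calc ∑ l : Fin m, (shift x (t l) G).totalDegree ≤ ∑ l : Fin m, e :=
            sum_le_sum fun l _ => (totalDegree_shift' x (t l) G).trans hG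
        _ = m * e := by simp
  have hsum := MvPolynomial.sum_eval_eq_zero Q hQdeg
  have hval : ∀ v : Fin n → F, v ≠ 0 → eval v Q = 0 := by
    intro v hv
    by_contra hne
    have h1 : eval v Q = (∏ i : Fin s, ∏ j : Fin m, (1 - (eval v (H i j)) ^ (q - 1))) *
        ∏ l : Fin m, eval (x + t l • v) G := by
      simp only [Q, map_mul, map_prod, map_sub, map_one, map_pow, eval_shift]
    rw [h1] at hne
    have hne1 := left_ne_zero_of_mul hne
    have hne2 := right_ne_zero_of_mul hne
    rw [Finset.prod_ne_zero_iff] at hne1 hne2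
    have hc : ∀ i j, eval v (H i j) = 0 := by
      intro i j
      have h2 := hne1 i (mem_univ _)
      rw [Finset.prod_ne_zero_iff] at h2
      have h3 := h2 j (mem_univ _)
      by_contra h4
      apply h3
      rw [hq, FiniteField.pow_card_sub_one_eq_one _ h4, sub_self]
    have hzero : ∀ i l, eval (x + t l • v) (g i) = 0 := by
      intro i l
      rw [← eval_onLine]
      apply hβ (onLine x v (g i)) (natDegree_onLine x v (g i) (hgd i))
      · rw [Polynomial.coeff_zero_eq_eval_zero, eval_onLine, zero_smul, add_zero]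
        exact hgA x hx i
      · intro j
        rw [← hH]
        exact hc i j
    apply hv
    apply hap x v hx
    intro l
    by_contra h3
    exact hne2 l (mem_univ _) (hGE _ (hE _ h3 fun i => hzero i l))
  rw [Finset.sum_eq_single 0 (fun v _ hv => hval v hv) (fun h => absurd (mem_univ _) h)] at hsum
  have h1 : eval (0 : Fin n → F) Q = (eval x G) ^ m := by
    have h3 : ∀ i, onLine x 0 (g i) = 0 := by
      intro i
      have h4 : onLine x 0 (g i) = Polynomial.C (eval x (g i)) := by
        have : (fun k => Polynomial.C (x k) + Polynomial.C ((0 : Fin n → F) k) * Polynomial.X) =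
            fun k => Polynomial.C (x k) := by
          ext1 k
          simp
        rw [onLine, this]
        induction g i using MvPolynomial.induction_on with
        | C a => simp
        | add p q hp hq => rw [map_add, map_add, hp, hq, Polynomial.C_add]
        | mul_X p k hp => rw [map_mul, map_mul, hp, aeval_X, eval_X, Polynomial.C_mul]
      rw [h4, hgA x hx i, Polynomial.C_0]
    have h2 : ∀ i j, eval (0 : Fin n → F) (H i j) = 0 := by
      intro i j
      rw [hH, h3 i]
      simp
    simp only [Q, map_mul, map_prod, map_sub, map_one, map_pow, eval_shift, h2, zero_pow hq1,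
      sub_zero, prod_const_one, one_mul, smul_zero, add_zero, prod_const, card_univ,
      Fintype.card_fin]
  rw [h1] at hsum
  exact pow_eq_zero_iff (by omega) |>.1 hsum

/-- **The main inequality.** -/
theorem core {d s m τ : ℕ} (A : Finset (Fin n → F)) (f : ι → MvPolynomial (Fin n) F)
    (hfd : ∀ z, (f z).totalDegree ≤ d) (hA : ∀ x, x ∈ A ↔ ∀ z, eval x (f z) = 0)
    (hmd : m ≤ d) (hm1 : 1 ≤ m) (t : Fin m → F) (ht : Function.Injective t) (ht0 : ∀ l, t l ≠ 0)
    (hap : ∀ x v : Fin n → F, x ∈ A → (∀ l, x + t l • v ∈ A) → v = 0)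
    (hτ : τ < Fintype.card F)
    (hdeg : (Fintype.card F - 1) * (s * ∑ j ∈ range m, (d - j)) + m * (n * τ) <
      (Fintype.card F - 1) * n) :
    A.card * (τ + 1) ^ n * Fintype.card F ^ s ≤ Fintype.card F ^ n * Fintype.card F ^ n := by
  classical
  obtain ⟨c, E, h1, h2⟩ := choose_comb A f (by
    intro y hy
    by_contra h
    push Not at h
    exact hy ((hA y).2 h)) s
  obtain ⟨S, -, hS⟩ := Finset.exists_subset_card_eq (s := (univ : Finset F)) (n := τ + 1) (by
    rw [card_univ]; exact hτ)
  have hgrid := grid_bound A E S hS (fun G hG hGZ => vanish A hmd hm1 t ht ht0 hap (comb f c)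
    (fun i => totalDegree_comb f hfd c i) (by
      intro x hx i
      rw [eval_comb]
      apply sum_eq_zero
      intro z _
      rw [(hA x).1 hx z, mul_zero]) E h2 G hG hGZ hdeg)
  calc A.card * (τ + 1) ^ n * Fintype.card F ^ s ≤
        Fintype.card F ^ n * E.card * Fintype.card F ^ s := Nat.mul_le_mul_right _ hgrid
    _ = Fintype.card F ^ n * (E.card * Fintype.card F ^ s) := by ring
    _ ≤ _ := Nat.mul_le_mul_left _ h1

end Pool.Agent.K6.H22.AL
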