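import Mathlib
import Pool.Agent.K6.H22.AL.Van

set_option autoImplicit false

/-!
The choice of the parameters, and Cartesian powers.
-/

namespace Pool.Agent.K6.H22.AL

open Finset MvPolynomial

/-- the bound with an additional factor `p` -/
theorem bound_aux {d p n m D : ℕ} [Fact p.Prime] (hp3 : 3 ≤ p) (hmd : m ≤ d) (hm1 : 1 ≤ m)
    (hD : D = ∑ j ∈ range m, (d - j))
    {ι : Type} [Fintype ι] [DecidableEq ι] (A : Finset (Fin n → ZMod p))
    (f : ι → MvPolynomial (Fin n) (ZMod p))
    (hfd : ∀ z, (f z).totalDegree ≤ d) (hA : ∀ x, x ∈ A ↔ ∀ z, eval x (f z) = 0)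
    (t : Fin m → ZMod p) (ht : Function.Injective t) (ht0 : ∀ l, t l ≠ 0)
    (hap : ∀ x v : Fin n → ZMod p, x ∈ A → (∀ l, x + t l • v ∈ A) → v = 0) :
    (A.card : ℝ) ≤ p * (6 * m * Real.log p * (p : ℝ) ^ (1 - 1 / (D : ℝ))) ^ n := by
  have hp3' : (3 : ℝ) ≤ p := by exact_mod_cast hp3
  have hp0 : (0 : ℝ) < p := by linarith
  have hlog1 : 1 < Real.log p := by
    rw [Real.lt_log_iff_exp_lt hp0]
    have := Real.exp_one_lt_d9
    linarith
  rcases Nat.eq_zero_or_pos n with hn | hn
  · subst hn
    rw [pow_zero, mul_one]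
    have h1 : A.card ≤ 1 := by
      refine (card_le_univ _).trans ?_
      rw [Fintype.card_fun, Fintype.card_fin, pow_zero]
    have h2 : (A.card : ℝ) ≤ 1 := by exact_mod_cast h1
    linarith
  -- parameters
  have hDpos : 0 < D := by
    rw [hD]
    have h1 := Finset.single_le_sum (s := range m) (f := fun j => d - j)
      (fun _ _ => Nat.zero_le _) (mem_range.2 hm1)
    omega
  set L := ⌈Real.log p⌉₊ with hL
  have hL1 : Real.log p ≤ L := Nat.le_ceil _
  have hL2 : (L : ℝ) < Real.log p + 1 := Nat.ceil_lt_add_one (by linarith)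
  have hL3 : 2 ≤ L := by
    have : (1 : ℝ) < L := by linarith
    have : 1 < L := by exact_mod_cast this
    omega
  set τ := (p - 1) / (m * L) with hτ
  set s := (n * (L - 1) - 1) / (D * L) with hs
  have hDL : 0 < D * L := by positivity
  have hmL : 0 < m * L := by positivity
  have hs1 : s * (D * L) < n * (L - 1) := by
    have h1 : s * (D * L) ≤ n * (L - 1) - 1 := Nat.div_mul_le_self _ _
    have h2 : 0 < n * (L - 1) := Nat.mul_pos hn (by omega)
    omega
  have hs2 : n * (L - 1) ≤ (s + 1) * (D * L) := by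
    have h1 : n * (L - 1) - 1 < (s + 1) * (D * L) := by
      have := Nat.lt_div_mul_add (a := n * (L - 1) - 1) hDL
      rw [add_mul, one_mul]
      exact this
    omega
  have hτ1 : τ * (m * L) ≤ p - 1 := Nat.div_mul_le_self _ _
  have hτ2 : p ≤ (τ + 1) * (m * L) := by
    have := Nat.lt_div_mul_add (a := p - 1) hmL
    rw [← hτ] at this
    rw [add_mul, one_mul]
    omega
  have hτp : τ < p := by
    have : τ ≤ p - 1 := Nat.div_le_self _ _
    omega
  have hsn : s ≤ n := by
    by_contra h
    push Not at h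
    have h1 : n * (L - 1) ≤ s * (D * L) := by
      calc n * (L - 1) ≤ s * L := Nat.mul_le_mul h.le (by omega)
        _ = s * (1 * L) := by ring
        _ ≤ s * (D * L) := Nat.mul_le_mul_left _ (Nat.mul_le_mul_right _ hDpos)
    omega
  have hdeg : (p - 1) * (s * D) + m * (n * τ) < (p - 1) * n := by
    have h1 : ((p - 1) * (s * D) + m * (n * τ)) * L < ((p - 1) * n) * L := by
      calc ((p - 1) * (s * D) + m * (n * τ)) * L =
            (p - 1) * (s * (D * L)) + n * (τ * (m * L)) := by ring
        _ ≤ (p - 1) * (s * (D * L)) + n * (p - 1) := by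
            apply Nat.add_le_add_left
            exact Nat.mul_le_mul_left _ hτ1
        _ < (p - 1) * (n * (L - 1)) + n * (p - 1) := by
            apply Nat.add_lt_add_right
            exact Nat.mul_lt_mul_of_pos_left hs1 (by omega)
        _ = ((p - 1) * n) * L := by
            obtain ⟨L', hL'⟩ : ∃ L', L = L' + 1 := ⟨L - 1, by omega⟩
            rw [hL', Nat.add_sub_cancel]
            ring
    exact lt_of_mul_lt_mul_right h1 (Nat.zero_le _)
  -- the main inequality
  set y : ℝ := (p : ℝ) / (τ + 1) with hy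
  have hτpos : (0 : ℝ) < (τ : ℝ) + 1 := by positivity
  have hmain : (A.card : ℝ) ≤ y ^ n * (p : ℝ) ^ (n - s) := by
    have h1 := core (s := s) (m := m) (τ := τ) A f hfd hA hmd hm1 t ht ht0 hap
      (by rw [ZMod.card]; exact hτp) (by rw [ZMod.card, ← hD]; exact hdeg)
    rw [ZMod.card] at h1
    have h2 : (A.card : ℝ) * ((τ : ℝ) + 1) ^ n * (p : ℝ) ^ s ≤ (p : ℝ) ^ n * (p : ℝ) ^ n := by
      exact_mod_cast h1
    have hps : (0 : ℝ) < (p : ℝ) ^ s := by positivity
    have h4 : (p : ℝ) ^ (n - s) = (p : ℝ) ^ n / (p : ℝ) ^ s := by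
      rw [eq_div_iff hps.ne', ← pow_add]
      congr 1
      omega
    rw [h4, hy, div_pow, div_mul_div_comm, le_div_iff₀ (by positivity)]
    linarith
  -- bounds for `y` and `p ^ (n - s)`
  have hyle : y ≤ 2 * m * Real.log p := by
    have h1 : (p : ℝ) ≤ ((τ : ℝ) + 1) * (m * L) := by exact_mod_cast hτ2
    have h2 : y ≤ m * L := by
      rw [hy, div_le_iff₀ hτpos]
      linarith
    have h4 : (L : ℝ) ≤ 2 * Real.log p := by linarith
    calc y ≤ m * L := h2
      _ ≤ m * (2 * Real.log p) := mul_le_mul_of_nonneg_left h4 (by positivity)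
      _ = 2 * m * Real.log p := by ring
  have hPle : (p : ℝ) ^ (n - s) ≤ p * (3 * (p : ℝ) ^ (1 - 1 / (D : ℝ))) ^ n := by
    have hDr0 : (0 : ℝ) < D := by exact_mod_cast hDpos
    have hLr0 : (0 : ℝ) < L := by linarith
    have h1 : ((n - s : ℕ) : ℝ) ≤ 1 + n * (1 - 1 / (D : ℝ)) + n * (1 / (D * L)) := by
      rw [Nat.cast_sub hsn]
      have h2 : (n : ℝ) * (L - 1) ≤ (s + 1) * (D * L) := by
        have : ((n * (L - 1) : ℕ) : ℝ) ≤ (((s + 1) * (D * L) : ℕ) : ℝ) := by exact_mod_cast hs2
        rw [Nat.cast_mul, Nat.cast_sub (by omega)] at this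
        push_cast at this
        exact this
      have h3 : (n : ℝ) * (L - 1) / (D * L) ≤ s + 1 := by
        rw [div_le_iff₀ (by positivity)]
        exact h2
      have h4 : (n : ℝ) * (L - 1) / (D * L) = n * (1 / D) - n * (1 / (D * L)) := by
        field_simp
      linarith
    have h6 : (p : ℝ) ^ (n - s) ≤ (p : ℝ) ^ (1 + n * (1 - 1 / (D : ℝ)) +
        n * (1 / ((D : ℝ) * L))) := by
      rw [← Real.rpow_natCast]
      exact Real.rpow_le_rpow_of_exponent_le (by linarith) h1
    refine h6.trans ?_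
    rw [Real.rpow_add hp0, Real.rpow_add hp0, Real.rpow_one, mul_pow, mul_assoc]
    apply mul_le_mul_of_nonneg_left _ hp0.le
    have h7 : (p : ℝ) ^ ((n : ℝ) * (1 - 1 / (D : ℝ))) = ((p : ℝ) ^ (1 - 1 / (D : ℝ))) ^ n := by
      rw [mul_comm, Real.rpow_mul hp0.le, Real.rpow_natCast]
    have h8 : (p : ℝ) ^ ((n : ℝ) * (1 / ((D : ℝ) * L))) ≤ 3 ^ n := by
      rw [mul_comm, Real.rpow_mul hp0.le, Real.rpow_natCast]
      apply pow_le_pow_left₀ (by positivity)
      rw [Real.rpow_def_of_pos hp0]
      have h9 : Real.log p * (1 / ((D : ℝ) * L)) ≤ 1 := by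
        rw [mul_one_div, div_le_one (by positivity)]
        have : (1 : ℝ) ≤ D := by exact_mod_cast hDpos
        nlinarith
      calc Real.exp (Real.log p * (1 / ((D : ℝ) * L))) ≤ Real.exp 1 := Real.exp_le_exp.2 h9
        _ ≤ 3 := by have := Real.exp_one_lt_d9; linarith
    rw [h7, mul_comm ((3 : ℝ) ^ n)]
    exact mul_le_mul_of_nonneg_left h8 (by positivity)
  -- conclusion
  set Q : ℝ := (p : ℝ) ^ (1 - 1 / (D : ℝ)) with hQ
  have hQ0 : 0 < Q := by rw [hQ]; positivity
  have hy0 : 0 ≤ y := by positivity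
  have hlog0 : 0 ≤ Real.log p := by linarith
  calc (A.card : ℝ) ≤ y ^ n * (p : ℝ) ^ (n - s) := hmain
    _ ≤ (2 * m * Real.log p) ^ n * (p * (3 * Q) ^ n) := by
        gcongr
    _ = p * ((2 * m * Real.log p) ^ n * (3 * Q) ^ n) := by ring
    _ = p * (6 * m * Real.log p * Q) ^ n := by
        rw [← mul_pow]
        congr 2
        ring

/-- **The bound for zero sets.** -/
theorem bound {d p n m D : ℕ} [Fact p.Prime] (hp3 : 3 ≤ p) (hmd : m ≤ d) (hm1 : 1 ≤ m)
    (hD : D = ∑ j ∈ range m, (d - j))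
    {ι : Type} [Fintype ι] [DecidableEq ι] (A : Finset (Fin n → ZMod p))
    (f : ι → MvPolynomial (Fin n) (ZMod p))
    (hfd : ∀ z, (f z).totalDegree ≤ d) (hA : ∀ x, x ∈ A ↔ ∀ z, eval x (f z) = 0)
    (t : Fin m → ZMod p) (ht : Function.Injective t) (ht0 : ∀ l, t l ≠ 0)
    (hap : ∀ x v : Fin n → ZMod p, x ∈ A → (∀ l, x + t l • v ∈ A) → v = 0) :
    (A.card : ℝ) ≤ (6 * m * Real.log p * (p : ℝ) ^ (1 - 1 / (D : ℝ))) ^ n := by
  classical
  have hp0 : (0 : ℝ) < p := by
    have : 0 < p := by omega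
    exact_mod_cast this
  have hlog : 0 < Real.log p := by
    apply Real.log_pos
    have : 1 < p := by omega
    exact_mod_cast this
  have hm0 : (0 : ℝ) < m := by exact_mod_cast hm1
  set κ : ℝ := 6 * m * Real.log p * (p : ℝ) ^ (1 - 1 / (D : ℝ)) with hκ
  have hκ0 : 0 < κ := by rw [hκ]; positivity
  have hpow : ∀ k : ℕ, (A.card : ℝ) ^ k ≤ p * (κ ^ n) ^ k := by
    intro k
    let blk : (Fin (k * n) → ZMod p) → Fin k → Fin n → ZMod p :=
      fun x j i => x (finProdFinEquiv (j, i))
    let B : Finset (Fin (k * n) → ZMod p) := univ.filter fun x => ∀ j, blk x j ∈ A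
    let e : (Fin (k * n) → ZMod p) ≃ (Fin k → Fin n → ZMod p) :=
      (Equiv.arrowCongr finProdFinEquiv.symm (Equiv.refl _)).trans (Equiv.curry _ _ _)
    have he : ∀ x, e x = blk x := fun x => rfl
    have hcard : B.card = A.card ^ k := by
      have h1 : B.card = Fintype.card {x : Fin (k * n) → ZMod p // ∀ j, blk x j ∈ A} := by
        rw [Fintype.card_subtype]
      have h2 : {x : Fin (k * n) → ZMod p // ∀ j, blk x j ∈ A} ≃ (Fin k → A) :=
        { toFun := fun x j => ⟨blk x.1 j, x.2 j⟩
          invFun := fun y => ⟨e.symm fun j => (y j).1, by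
            intro j
            rw [← he, Equiv.apply_symm_apply]
            exact (y j).2⟩
          left_inv := by
            intro x
            apply Subtype.ext
            show e.symm (fun j => blk x.1 j) = x.1
            rw [Equiv.symm_apply_eq]
            rfl
          right_inv := by
            intro y
            funext j
            apply Subtype.ext
            show blk (e.symm fun j => (y j).1) j = (y j).1
            rw [← he, Equiv.apply_symm_apply] }
      rw [h1, Fintype.card_congr h2, Fintype.card_fun, Fintype.card_fin, Fintype.card_coe]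
    let f' : Fin k × ι → MvPolynomial (Fin (k * n)) (ZMod p) :=
      fun z => rename (fun i => finProdFinEquiv (z.1, i)) (f z.2)
    have hB : ∀ x, x ∈ B ↔ ∀ z, eval x (f' z) = 0 := by
      intro x
      have h1 : ∀ z, eval x (f' z) = eval (blk x z.1) (f z.2) := by
        intro z
        rw [eval_rename]
        rfl
      simp only [B, mem_filter, mem_univ, true_and, hA, h1]
      exact ⟨fun h z => h z.1 z.2, fun h j i => h (j, i)⟩
    have hb := bound_aux hp3 hmd hm1 hD B f' (fun z => (totalDegree_rename_le _ _).trans (hfd z.2))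
      hB t ht ht0 (by
        intro x v hx h
        funext i
        obtain ⟨⟨j, a⟩, rfl⟩ := finProdFinEquiv.surjective i
        have h1 := hap (blk x j) (blk v j) ((mem_filter.1 hx).2 j) (by
          intro l
          exact (mem_filter.1 (h l)).2 j)
        exact congrFun h1 a)
    rw [hcard] at hb
    push_cast at hb
    rw [← pow_mul, mul_comm n k]
    exact hb
  by_contra hlt
  push Not at hlt
  have hκn : 0 < κ ^ n := by positivity
  obtain ⟨k, hk⟩ := pow_unbounded_of_one_lt (p : ℝ) ((one_lt_div hκn).2 hlt)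
  have h1 := hpow k
  rw [div_pow, lt_div_iff₀ (by positivity)] at hk
  linarith

end Pool.Agent.K6.H22.AL
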