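import Mathlib

set_option autoImplicit false

/-!
Sums of norm forms of all degrees up to `d`, as polynomials.
-/

namespace Pool.Agent.K6.H22.AL

open Polynomial

variable (K : Type) [Field K] [Fintype K]

/-- A norm form of degree `j` in `j` variables, with the shape of its restriction to lines. -/
lemma norm_poly (j : ℕ) (hj : j ≠ 0) : ∃ N : MvPolynomial (Fin j) K, N.totalDegree ≤ j ∧
    ∀ x u : Fin j → K, ∃ g : K[X], g.natDegree ≤ j ∧ (u ≠ 0 → g.coeff j ≠ 0) ∧
      (u = 0 → g = C (MvPolynomial.eval x N)) ∧
      ∀ s : K, MvPolynomial.eval (x + s • u) N = g.eval s := by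
  classical
  obtain ⟨p, hp⟩ := CharP.exists K
  have hpp : Fact p.Prime := ⟨CharP.char_is_prime K p⟩
  have hj' : NeZero j := ⟨hj⟩
  let L := FiniteField.Extension K p j
  let b : Module.Basis (Fin j) K L :=
    Module.finBasisOfFinrankEq K L (FiniteField.finrank_extension K p j)
  let φ : (Fin j → K) →ₗ[K] Matrix (Fin j) (Fin j) K :=
    (Algebra.leftMulMatrix b).toLinearMap.comp b.equivFun.symm.toLinearMap
  have hdet : ∀ u : Fin j → K, u ≠ 0 → (φ u).det ≠ 0 := by
    intro u hu
    have h1 : (φ u).det = Algebra.norm K (b.equivFun.symm u) := by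
      rw [Algebra.norm_eq_matrix_det b]
      rfl
    rw [h1, Algebra.norm_ne_zero_iff]
    exact (LinearEquiv.map_ne_zero_iff b.equivFun.symm).mpr hu
  let M : Matrix (Fin j) (Fin j) (MvPolynomial (Fin j) K) := fun a c =>
    ∑ i, MvPolynomial.C (φ (Pi.single i 1) a c) * MvPolynomial.X i
  have hM : ∀ x : Fin j → K, MvPolynomial.eval x M.det = (φ x).det := by
    intro x
    rw [RingHom.map_det]
    congr 1
    ext a c
    have h1 : φ x = ∑ i, x i • φ (Pi.single i 1) := by
      conv_lhs => rw [LinearMap.pi_apply_eq_sum_univ φ x]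
      refine Finset.sum_congr rfl fun i _ => ?_
      congr 2
      ext k
      simp [Pi.single_apply, eq_comm]
    rw [h1, Matrix.sum_apply]
    simp only [RingHom.mapMatrix_apply, Matrix.map_apply, M, map_sum, map_mul, MvPolynomial.eval_C,
      MvPolynomial.eval_X, Matrix.smul_apply, smul_eq_mul]
    exact Finset.sum_congr rfl fun i _ => mul_comm _ _
  refine ⟨M.det, ?_, ?_⟩
  · rw [Matrix.det_apply']
    refine MvPolynomial.totalDegree_finsetSum_le fun τ _ => ?_
    refine (MvPolynomial.totalDegree_mul _ _).trans ?_
    have h1 : (((Equiv.Perm.sign τ : ℤˣ) : ℤ) : MvPolynomial (Fin j) K).totalDegree = 0 := by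
      rw [← map_intCast (MvPolynomial.C : K →+* MvPolynomial (Fin j) K),
        MvPolynomial.totalDegree_C]
    rw [h1, zero_add]
    refine (MvPolynomial.totalDegree_finsetProd _ _).trans ?_
    calc ∑ i : Fin j, (M (τ i) i).totalDegree ≤ ∑ i : Fin j, 1 := by
          refine Finset.sum_le_sum fun i _ => ?_
          refine MvPolynomial.totalDegree_finsetSum_le fun k _ => ?_
          refine (MvPolynomial.totalDegree_mul _ _).trans ?_
          rw [MvPolynomial.totalDegree_C, MvPolynomial.totalDegree_X]
      _ = j := by simp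
  intro x u
  by_cases hu : u = 0
  · refine ⟨C (MvPolynomial.eval x M.det), ?_, ?_, ?_, ?_⟩
    · rw [natDegree_C]
      exact Nat.zero_le _
    · intro h
      exact absurd hu h
    · intro _
      rfl
    · intro s
      simp [hu]
  · refine ⟨Matrix.det ((X : K[X]) • (φ u).map C + (φ x).map C), ?_, ?_, ?_, ?_⟩
    · have := natDegree_det_X_add_C_le (φ u) (φ x)
      simpa using this
    · intro _
      have := coeff_det_X_add_C_card (φ u) (φ x)
      rw [Fintype.card_fin] at this
      rw [this]
      exact hdet u hu
    · intro h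
      exact absurd h hu
    · intro s
      rw [hM]
      have h1 : eval s (Matrix.det ((X : K[X]) • (φ u).map C + (φ x).map C)) =
          Matrix.det ((evalRingHom s).mapMatrix ((X : K[X]) • (φ u).map C + (φ x).map C)) := by
        rw [← RingHom.map_det]
        rfl
      rw [h1]
      simp only [map_add, map_smul]
      congr 1
      ext a c
      simp only [RingHom.mapMatrix_apply, Matrix.add_apply, Matrix.map_apply, Matrix.smul_apply,
        smul_eq_mul, coe_evalRingHom, eval_mul, eval_X, eval_C]
      ring

/-- The layered form: nonconstant of degree at most `d` along every line of `K^(1+⋯+d)`. -/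
lemma layer_poly (d : ℕ) : ∃ D : ℕ, 2 * D = d * (d + 1) ∧ ∃ F : MvPolynomial (Fin D) K,
    F.totalDegree ≤ d ∧ ∀ x u : Fin D → K, u ≠ 0 →
    ∃ g : K[X], 1 ≤ g.natDegree ∧ g.natDegree ≤ d ∧
      ∀ s : K, MvPolynomial.eval (x + s • u) F = g.eval s := by
  induction d with
  | zero =>
    refine ⟨0, rfl, 0, ?_, ?_⟩
    · rw [MvPolynomial.totalDegree_zero]
    intro x u hu
    exfalso
    apply hu
    funext i
    exact Fin.elim0 i
  | succ d ih =>
    obtain ⟨D, hD, F, hFd, hF⟩ := ih
    obtain ⟨N, hNd, hN⟩ := norm_poly K (d + 1) (Nat.succ_ne_zero d)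
    refine ⟨D + (d + 1), by linarith [hD, mul_comm d (d + 1)],
      MvPolynomial.rename (Fin.castAdd (d + 1)) F + MvPolynomial.rename (Fin.natAdd D) N, ?_, ?_⟩
    · refine (MvPolynomial.totalDegree_add _ _).trans (max_le ?_ ?_)
      · exact (MvPolynomial.totalDegree_rename_le _ _).trans (by omega)
      · exact (MvPolynomial.totalDegree_rename_le _ _).trans hNd
    intro x u hu
    have hev : ∀ s : K, MvPolynomial.eval (x + s • u)
        (MvPolynomial.rename (Fin.castAdd (d + 1)) F + MvPolynomial.rename (Fin.natAdd D) N) =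
        MvPolynomial.eval ((fun i => x (Fin.castAdd (d + 1) i)) +
          s • (fun i => u (Fin.castAdd (d + 1) i))) F +
        MvPolynomial.eval ((fun i => x (Fin.natAdd D i)) + s • (fun i => u (Fin.natAdd D i))) N := by
      intro s
      rw [map_add, MvPolynomial.eval_rename, MvPolynomial.eval_rename]
      rfl
    obtain ⟨g, hg1, hg2, hg3, hg4⟩ := hN (fun i => x (Fin.natAdd D i))
      (fun i => u (Fin.natAdd D i))
    by_cases hv : (fun i => u (Fin.castAdd (d + 1) i)) = (0 : Fin D → K)
    · -- the lower block of the direction vanishes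
      have hw : (fun i => u (Fin.natAdd D i)) ≠ (0 : Fin (d + 1) → K) := by
        intro hw
        apply hu
        funext i
        refine Fin.addCases (fun i => ?_) (fun i => ?_) i
        · exact congrFun hv i
        · exact congrFun hw i
      have hc := hg2 hw
      have hdeg : g.natDegree = d + 1 := le_antisymm hg1 (le_natDegree_of_ne_zero hc)
      refine ⟨C (MvPolynomial.eval (fun i => x (Fin.castAdd (d + 1) i)) F) + g, ?_, ?_, ?_⟩
      · rw [natDegree_C_add, hdeg]
        omega
      · rw [natDegree_C_add, hdeg]
      · intro s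
        rw [hev, hg4 s, hv, smul_zero, add_zero, eval_add, eval_C]
    · obtain ⟨f, hf1, hf2, hf3⟩ := hF (fun i => x (Fin.castAdd (d + 1) i))
        (fun i => u (Fin.castAdd (d + 1) i)) hv
      refine ⟨f + g, ?_, ?_, ?_⟩
      · by_cases hw : (fun i => u (Fin.natAdd D i)) = (0 : Fin (d + 1) → K)
        · rw [hg3 hw, natDegree_add_C]
          exact hf1
        · have hc := hg2 hw
          have hfc : f.coeff (d + 1) = 0 := coeff_eq_zero_of_natDegree_lt (by omega)
          have : (f + g).coeff (d + 1) ≠ 0 := by
            rw [coeff_add, hfc, zero_add]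
            exact hc
          have := le_natDegree_of_ne_zero this
          omega
      · exact (natDegree_add_le _ _).trans (max_le (by omega) hg1)
      · intro s
        rw [hev, hf3 s, hg4 s, eval_add]

/-- **Zero sets of `q` polynomials of degree at most `d` in `q d (d + 1) / 2` variables which meet
every line in at most `d` points.** -/
theorem exists_zeroSet (d q : ℕ) (hd : 1 ≤ d) : ∃ D : ℕ, 2 * D = d * (d + 1) ∧
    ∃ f : Fin q → MvPolynomial (Fin (q * D)) K, (∀ j, (f j).totalDegree ≤ d) ∧
      (Fintype.card K ^ ((D - 1) * q) ≤ {x : Fin (q * D) → K | ∀ j, MvPolynomial.eval x (f j) = 0}.ncard) ∧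
      ∀ x u : Fin (q * D) → K, u ≠ 0 → ∀ T : Finset K,
        (∀ s ∈ T, ∀ j, MvPolynomial.eval (x + s • u) (f j) = 0) → T.card ≤ d := by
  classical
  obtain ⟨D, hD, F, hFd, hF⟩ := layer_poly K d
  have htri : 1 ≤ D := by nlinarith
  have hcard : (Finset.univ : Finset K).card * Fintype.card K ^ (D - 1) ≤
      (Finset.univ : Finset (Fin D → K)).card := by
    rw [Finset.card_univ, Finset.card_univ, Fintype.card_fun, Fintype.card_fin, ← pow_succ']
    apply le_of_eq
    congr 1
    omega
  obtain ⟨c, _, hc⟩ := Finset.exists_le_card_fiber_of_mul_le_card_of_maps_to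
    (f := fun x => MvPolynomial.eval x F) (s := Finset.univ) (t := Finset.univ)
    (fun a _ => Finset.mem_univ _) Finset.univ_nonempty hcard
  let blk : (Fin (q * D) → K) → Fin q → Fin D → K := fun x j i => x (finProdFinEquiv (j, i))
  let e : (Fin (q * D) → K) ≃ (Fin q → Fin D → K) :=
    (Equiv.arrowCongr finProdFinEquiv.symm (Equiv.refl _)).trans (Equiv.curry _ _ _)
  have he : ∀ x, e x = blk x := fun x => rfl
  let f : Fin q → MvPolynomial (Fin (q * D)) K :=
    fun j => MvPolynomial.rename (fun i => finProdFinEquiv (j, i)) F - MvPolynomial.C c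
  have hf : ∀ x j, MvPolynomial.eval x (f j) = MvPolynomial.eval (blk x j) F - c := by
    intro x j
    rw [map_sub, MvPolynomial.eval_rename, MvPolynomial.eval_C]
    rfl
  refine ⟨D, hD, f, ?_, ?_, ?_⟩
  · intro j
    refine (MvPolynomial.totalDegree_sub _ _).trans (max_le ?_ ?_)
    · exact (MvPolynomial.totalDegree_rename_le _ _).trans hFd
    · rw [MvPolynomial.totalDegree_C]; exact Nat.zero_le _
  · have h1 : {x : Fin (q * D) → K | ∀ j, MvPolynomial.eval x (f j) = 0}.ncard =
        ((Finset.univ : Finset (Fin D → K)).filter fun x => MvPolynomial.eval x F = c).card ^ q := by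
      rw [← Nat.card_coe_set_eq, Nat.card_eq_fintype_card]
      have h2 : {x : Fin (q * D) → K | ∀ j, MvPolynomial.eval x (f j) = 0} ≃
          (Fin q → ((Finset.univ : Finset (Fin D → K)).filter fun x => MvPolynomial.eval x F = c)) :=
        { toFun := fun x j => ⟨blk x.1 j, by
            have h3 := x.2 j
            rw [hf] at h3
            rw [Finset.mem_filter]
            exact ⟨Finset.mem_univ _, sub_eq_zero.1 h3⟩⟩
          invFun := fun y => ⟨e.symm fun j => (y j).1, by
            intro j
            rw [hf, ← he, Equiv.apply_symm_apply]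
            exact sub_eq_zero.2 (Finset.mem_filter.1 (y j).2).2⟩
          left_inv := by
            intro x
            apply Subtype.ext
            show e.symm (fun j => blk x.1 j) = x.1
            rw [Equiv.symm_apply_eq]
            rfl
          right_inv := by
            intro y
            funext j
            apply Subtype.ext
            show blk (e.symm fun j => (y j).1) j = (y j).1
            rw [← he, Equiv.apply_symm_apply] }
      rw [Fintype.card_congr h2, Fintype.card_fun, Fintype.card_fin, Fintype.card_coe]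
    rw [h1, pow_mul]
    exact Nat.pow_le_pow_left hc q
  · intro x u hu T hT
    obtain ⟨j, hj⟩ : ∃ j, blk u j ≠ 0 := by
      by_contra h
      push Not at h
      apply hu
      funext i
      obtain ⟨⟨j, a⟩, rfl⟩ := finProdFinEquiv.surjective i
      exact congrFun (h j) a
    obtain ⟨g, hg1, hg2, hg3⟩ := hF (blk x j) (blk u j) hj
    have hgc : g - C c ≠ 0 := by
      intro h
      have : g = C c := sub_eq_zero.mp h
      rw [this, natDegree_C] at hg1
      omega
    have hsub : T ⊆ (g - C c).roots.toFinset := by
      intro s hs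
      have h1 := hT s hs j
      rw [hf] at h1
      have h2 : blk (x + s • u) j = blk x j + s • blk u j := rfl
      rw [h2, hg3 s] at h1
      rw [Multiset.mem_toFinset, mem_roots hgc, IsRoot.def, eval_sub, eval_C]
      exact h1
    calc T.card ≤ (g - C c).roots.toFinset.card := Finset.card_le_card hsub
      _ ≤ (g - C c).roots.card := Multiset.toFinset_card_le _
      _ ≤ (g - C c).natDegree := card_roots' _
      _ = g.natDegree := natDegree_sub_C
      _ ≤ d := hg2

end Pool.Agent.K6.H22.AL
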